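import Pool.Agent.Lib.MP_92a7e5_nt.NG.Count

set_option autoImplicit false

namespace Pool.Agent.Lib.MP_92a7e5_nt.NG

open Finset Real

/-- a block criterion for convergence (helper93) -/
lemma summable_of_blocks (f : ℕ → ℝ) (hf : ∀ k, 0 ≤ f k)
    (hB : Summable (fun j : ℕ => ∑ k ∈ Ico (2 ^ j) (2 ^ (j + 1)), f k)) : Summable f := by
  set B : ℕ → ℝ := fun j => ∑ k ∈ Ico (2 ^ j) (2 ^ (j + 1)), f k with hBdef
  have hBn : ∀ j, 0 ≤ B j := fun j => sum_nonneg fun k _ => hf k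
  have key : ∀ n : ℕ, ∑ k ∈ range (2 ^ n), f k ≤ f 0 + ∑ j ∈ range n, B j := by
    intro n
    induction n with
    | zero => simp
    | succ n ih =>
      rw [sum_range_succ (fun j => B j), ← add_assoc]
      have e : ∑ k ∈ range (2 ^ (n + 1)), f k = ∑ k ∈ range (2 ^ n), f k + B n := by
        rw [hBdef, sum_range_add_sum_Ico _ (Nat.pow_le_pow_right (by norm_num) (by omega))]
      rw [e]
      linarith
  refine summable_of_sum_range_le (c := f 0 + ∑' j, B j) hf fun n => ?_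
  have h1 : ∑ k ∈ range n, f k ≤ ∑ k ∈ range (2 ^ n), f k :=
    sum_le_sum_of_subset_of_nonneg
      (range_subset_range.2 (Nat.lt_two_pow_self).le) fun k _ _ => hf k
  have h2 : ∑ j ∈ range n, B j ≤ ∑' j, B j := hB.sum_le_tsum _ fun j _ => hBn j
  linarith [key n]

lemma bt_sum {s : ℝ} (hs1 : 1 < s) : Summable (fun K : ℕ => 1 / (((K : ℝ) + 1) * bt K ^ s)) := by
  have hs : 0 < s := by linarith
  set g : ℕ → ℝ := fun k => 1 / (((k : ℝ) + 1) * bt k ^ s) with hg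
  have hg0 : ∀ k, 0 ≤ g k := fun k => by
    have := bt_ge k
    have : 0 < bt k ^ s := rpow_pos_of_pos (by linarith) _
    simp only [hg]
    positivity
  have hgm : ∀ ⦃m n : ℕ⦄, 0 < m → m ≤ n → g n ≤ g m := by
    intro m n _ hmn
    have hm0 : (0 : ℝ) ≤ m := Nat.cast_nonneg m
    have hmn' : (m : ℝ) ≤ n := by exact_mod_cast hmn
    have h1 := bt_ge m
    have h2 : bt m ≤ bt n := by
      unfold bt
      have : log (1 + ((m : ℝ) + 1) / 3) ≤ log (1 + ((n : ℝ) + 1) / 3) :=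
        log_le_log (by positivity) (by linarith)
      linarith
    have h3 : bt m ^ s ≤ bt n ^ s := rpow_le_rpow (by linarith) h2 hs.le
    have h4 : 0 < bt m ^ s := rpow_pos_of_pos (by linarith) _
    have h5 : 0 < bt n ^ s := lt_of_lt_of_le h4 h3
    simp only [hg]
    gcongr
  rw [← summable_condensed_iff_of_nonneg hg0 hgm]
  have hps : Summable (fun j : ℕ => (3 : ℝ) ^ s * (1 / (((j + 1 : ℕ) : ℝ)) ^ s)) :=
    Summable.mul_left _ ((summable_nat_add_iff 1).2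
      (Real.summable_one_div_nat_rpow.2 hs1))
  refine Summable.of_nonneg_of_le (fun k => mul_nonneg (by positivity) (hg0 _)) (fun j => ?_) hps
  have hj : (0 : ℝ) ≤ j := Nat.cast_nonneg j
  have hp : (0 : ℝ) < 2 ^ j := by positivity
  have h1 : ((j : ℝ) + 1) / 3 ≤ bt (2 ^ j) := by
    unfold bt
    push_cast
    have hl := Real.log_two_gt_d9
    rcases le_total (j : ℝ) 2 with h2 | h2
    · have := log_nonneg (show (1 : ℝ) ≤ 1 + ((2 : ℝ) ^ j + 1) / 3 by linarith)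
      linarith
    · have h3 : log ((2 : ℝ) ^ j / 2 ^ 2) ≤ log (1 + ((2 : ℝ) ^ j + 1) / 3) :=
        log_le_log (by positivity) (by linarith)
      rw [Real.log_div (by positivity) (by norm_num), Real.log_pow, Real.log_pow] at h3
      push_cast at h3
      nlinarith
  have h2 : (((j : ℝ) + 1) / 3) ^ s ≤ bt (2 ^ j) ^ s :=
    rpow_le_rpow (by positivity) h1 hs.le
  have h3 : (((j : ℝ) + 1) / 3) ^ s = ((j : ℝ) + 1) ^ s / 3 ^ s :=
    div_rpow (by positivity) (by norm_num) _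
  have h4 : 0 < ((j : ℝ) + 1) ^ s := rpow_pos_of_pos (by positivity) _
  have h5 : (0 : ℝ) < 3 ^ s := rpow_pos_of_pos (by norm_num) _
  have h6 : (2 : ℝ) ^ j * (((j : ℝ) + 1) ^ s / 3 ^ s) ≤
      (((2 ^ j : ℕ) : ℝ) + 1) * bt (2 ^ j) ^ s := by
    rw [← h3]
    have h7 : (2 : ℝ) ^ j ≤ ((2 ^ j : ℕ) : ℝ) + 1 := by push_cast; linarith
    gcongr
  simp only [hg]
  calc (2 : ℝ) ^ j * (1 / ((((2 ^ j : ℕ) : ℝ) + 1) * bt (2 ^ j) ^ s))
      ≤ (2 : ℝ) ^ j * (1 / ((2 : ℝ) ^ j * (((j : ℝ) + 1) ^ s / 3 ^ s))) := by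
        gcongr
    _ = _ := by
        push_cast
        field_simp

/-- the sum over a block, given a bound for the number of indices with two given gaps -/
lemma block_bound {c R : ℝ} (K : ℕ) (hR : 0 ≤ R) (nb : ℕ → ℕ)
    (hnb : ∀ a b : ℕ, a ≤ (K + 3) ^ 2 → b ≤ (K + 3) ^ 2 →
      (((Finset.Ico (2 ^ K) (2 ^ (K + 1))).filter (fun k => g k = a ∧ nb k = b)).card : ℝ) ≤ R)
    (hc : 0 ≤ c) (f : ℕ → ℝ)
    (hf : ∀ k ∈ Finset.Ico (2 ^ K) (2 ^ (K + 1)), f k ≤ 1 / (((k : ℝ) + 1) * g k))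
    (hf0 : ∀ k ∈ Finset.Ico (2 ^ K) (2 ^ (K + 1)), f k ≠ 0 →
      g k ≤ (K + 3) ^ 2 ∧ 1 ≤ nb k ∧ (nb k : ℝ) * bt K ^ c ≤ K + 1) :
    ∑ k ∈ Finset.Ico (2 ^ K) (2 ^ (K + 1)), f k ≤
      1 / 2 ^ K * (5 * bt K * (((K : ℝ) + 1) / bt K ^ c) * R) := by
  classical
  have hbt := bt_ge K
  have hK0 : (0 : ℝ) ≤ K := Nat.cast_nonneg K
  have hbc : 0 < bt K ^ c := rpow_pos_of_pos (by linarith) _
  have hbc1 : 1 ≤ bt K ^ c := Real.one_le_rpow hbt hc
  set I := Finset.Ico (2 ^ K) (2 ^ (K + 1)) with hI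
  set A : ℕ := (K + 3) ^ 2 with hA
  set B : ℕ := ⌊((K : ℝ) + 1) / bt K ^ c⌋₊ with hB
  have hBr : (B : ℝ) ≤ ((K : ℝ) + 1) / bt K ^ c := Nat.floor_le (by positivity)
  have hBA : B ≤ A := by
    have h1 : (B : ℝ) ≤ (K : ℝ) + 1 := hBr.trans (div_le_self (by positivity) hbc1)
    have h2 : B ≤ K + 1 := by exact_mod_cast h1
    have h3 : K + 1 ≤ (K + 3) ^ 2 := by nlinarith
    omega
  set S := I.filter (fun k => f k ≠ 0) with hS
  have h1 : ∑ k ∈ I, f k = ∑ k ∈ S, f k := (Finset.sum_filter_ne_zero I).symm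
  have hmaps : ∀ k ∈ S, (g k, nb k) ∈ Finset.Icc 1 A ×ˢ Finset.Icc 1 B := by
    intro k hk
    rw [hS, Finset.mem_filter] at hk
    obtain ⟨e1, e2, e3⟩ := hf0 k hk.1 hk.2
    rw [Finset.mem_product, Finset.mem_Icc, Finset.mem_Icc]
    refine ⟨⟨g_pos k, e1⟩, e2, ?_⟩
    rw [hB]
    apply Nat.le_floor
    rw [le_div_iff₀ hbc]
    exact e3
  have h2 : ∑ k ∈ S, f k ≤ ∑ k ∈ S, 1 / 2 ^ K * (1 / (g k : ℝ)) := by
    refine Finset.sum_le_sum fun k hk => ?_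
    rw [hS, Finset.mem_filter] at hk
    refine (hf k hk.1).trans ?_
    have hg : (0 : ℝ) < g k := by exact_mod_cast g_pos k
    have hk2 : (2 : ℝ) ^ K ≤ (k : ℝ) + 1 := by
      have : 2 ^ K ≤ k := (Finset.mem_Ico.1 hk.1).1
      have : ((2 ^ K : ℕ) : ℝ) ≤ k := by exact_mod_cast this
      push_cast at this
      linarith
    rw [one_div_mul_one_div]
    apply one_div_le_one_div_of_le (by positivity)
    gcongr
  have h3 : ∑ k ∈ S, 1 / 2 ^ K * (1 / (g k : ℝ)) =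
      ∑ x ∈ Finset.Icc 1 A ×ˢ Finset.Icc 1 B,
        ∑ k ∈ S.filter (fun k => (g k, nb k) = x), 1 / 2 ^ K * (1 / (g k : ℝ)) :=
    (Finset.sum_fiberwise_of_maps_to hmaps _).symm
  have h4 : ∀ x ∈ Finset.Icc 1 A ×ˢ Finset.Icc 1 B,
      ∑ k ∈ S.filter (fun k => (g k, nb k) = x), 1 / 2 ^ K * (1 / (g k : ℝ)) ≤
        1 / 2 ^ K * (1 / (x.1 : ℝ) * R) := by
    rintro ⟨a, b⟩ hx
    rw [Finset.mem_product, Finset.mem_Icc, Finset.mem_Icc] at hx
    obtain ⟨⟨ha1, ha2⟩, hb1, hb2⟩ := hx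
    simp only at ha1 ha2 hb1 hb2 ⊢
    have e1 : ∑ k ∈ S.filter (fun k => (g k, nb k) = (a, b)), 1 / 2 ^ K * (1 / (g k : ℝ)) =
        ∑ k ∈ S.filter (fun k => (g k, nb k) = (a, b)), 1 / 2 ^ K * (1 / (a : ℝ)) := by
      refine Finset.sum_congr rfl fun k hk => ?_
      rw [Finset.mem_filter, Prod.mk.injEq] at hk
      rw [hk.2.1]
    rw [e1, Finset.sum_const, nsmul_eq_mul]
    have e2 : ((S.filter (fun k => (g k, nb k) = (a, b))).card : ℝ) ≤ R := by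
      refine le_trans ?_ (hnb a b ha2 (hb2.trans hBA))
      have : S.filter (fun k => (g k, nb k) = (a, b)) ⊆ I.filter (fun k => g k = a ∧ nb k = b) := by
        intro k hk
        rw [Finset.mem_filter, hS, Finset.mem_filter, Prod.mk.injEq] at hk
        rw [Finset.mem_filter]
        exact ⟨hk.1.1, hk.2⟩
      exact_mod_cast Finset.card_le_card this
    have ha : (0 : ℝ) < a := by exact_mod_cast ha1
    calc ((S.filter (fun k => (g k, nb k) = (a, b))).card : ℝ) * (1 / 2 ^ K * (1 / (a : ℝ)))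
        ≤ R * (1 / 2 ^ K * (1 / (a : ℝ))) := by gcongr
      _ = _ := by ring
  have h5 : ∑ x ∈ Finset.Icc 1 A ×ˢ Finset.Icc 1 B, 1 / 2 ^ K * (1 / (x.1 : ℝ) * R) =
      1 / 2 ^ K * ((∑ a ∈ Finset.Icc 1 A, 1 / (a : ℝ)) * B * R) := by
    rw [Finset.sum_product]
    simp only [Finset.sum_const, Nat.card_Icc, Nat.add_sub_cancel, nsmul_eq_mul]
    rw [Finset.sum_mul, Finset.sum_mul, Finset.mul_sum]
    refine Finset.sum_congr rfl fun a _ => ?_
    ring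
  have h6 : ∑ a ∈ Finset.Icc 1 A, 1 / (a : ℝ) ≤ 5 * bt K := by
    have e1 := harmonic_le_one_add_log A
    rw [harmonic_eq_sum_Icc] at e1
    push_cast at e1
    have e2 : ∑ a ∈ Finset.Icc 1 A, 1 / (a : ℝ) = ∑ a ∈ Finset.Icc 1 A, ((a : ℝ))⁻¹ := by
      simp only [one_div]
    rw [e2]
    refine e1.trans ?_
    have e3 : log (A : ℝ) = 2 * log ((K : ℝ) + 3) := by
      rw [hA]; push_cast; rw [Real.log_pow]; push_cast; ring
    rw [e3]
    have e4 := log_le_bt K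
    linarith
  calc ∑ k ∈ I, f k ≤ ∑ x ∈ Finset.Icc 1 A ×ˢ Finset.Icc 1 B, 1 / 2 ^ K * (1 / (x.1 : ℝ) * R) := by
        rw [h1]
        refine h2.trans ?_
        rw [h3]
        exact Finset.sum_le_sum h4
    _ = 1 / 2 ^ K * ((∑ a ∈ Finset.Icc 1 A, 1 / (a : ℝ)) * B * R) := h5
    _ ≤ _ := by
        have e0 : 0 ≤ ∑ a ∈ Finset.Icc 1 A, 1 / (a : ℝ) :=
          Finset.sum_nonneg fun _ _ => by positivity
        gcongr

end Pool.Agent.Lib.MP_92a7e5_nt.NG
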