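import Pool.Agent.Lib.MP_d610d0_nt.CH.M2.mer

set_option autoImplicit false

namespace Pool.Agent.Lib.MP_92a7e5_nt.NG

open Finset

private lemma two_pow_card_primeFactors_le {m : ℕ} (hm : 1 ≤ m) : 2 ^ m.primeFactors.card ≤ m := by
  have h1 : 2 ^ m.primeFactors.card ≤ ∏ p ∈ m.primeFactors, p := by
    apply Finset.pow_card_le_prod
    intro p hp
    exact (Nat.prime_of_mem_primeFactors hp).two_le
  exact h1.trans (Nat.le_of_dvd hm (Nat.prod_primeFactors_dvd m))

/-- the sum of `1 / p` over the prime divisors of `m` -/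
theorem primeFactors_sum_le : ∃ C : ℝ, 0 ≤ C ∧ ∀ m : ℕ, 1 ≤ m →
    ∑ p ∈ m.primeFactors, (1 : ℝ) / p ≤ Real.log (Real.log (Real.log m + 3)) + C := by
  obtain ⟨C0, hC0, hmer⟩ := Pool.Agent.CH.M2.p_mer
  have hl2 : 0 < Real.log 2 := Real.log_pos (by norm_num)
  refine ⟨C0 / Real.log 2 + 1 / Real.log 2 + |Real.log (Real.log 2)|, by positivity, ?_⟩
  intro m hm
  have hlm : 0 ≤ Real.log m := Real.log_natCast_nonneg m
  set y : ℝ := Real.log m + 3 with hy
  have hy3 : 3 ≤ y := by linarith
  have hly : 0 < Real.log y := Real.log_pos (by linarith)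
  rw [← Finset.sum_filter_add_sum_filter_not m.primeFactors (fun p : ℕ => (p : ℝ) ≤ y)]
  have h1 : ∑ p ∈ m.primeFactors.filter (fun p : ℕ => (p : ℝ) ≤ y), (1 : ℝ) / p
      ≤ Real.log (Real.log y / Real.log 2) + C0 / Real.log 2 := by
    refine hmer _ 2 y le_rfl (by linarith) ?_
    intro p hp
    rw [Finset.mem_filter] at hp
    have hpp := Nat.prime_of_mem_primeFactors hp.1
    exact ⟨hpp, by exact_mod_cast hpp.two_le, hp.2⟩
  have h2 : ∑ p ∈ m.primeFactors.filter (fun p : ℕ => ¬ (p : ℝ) ≤ y), (1 : ℝ) / p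
      ≤ 1 / Real.log 2 := by
    have h3 : ∑ p ∈ m.primeFactors.filter (fun p : ℕ => ¬ (p : ℝ) ≤ y), (1 : ℝ) / p
        ≤ ∑ p ∈ m.primeFactors.filter (fun p : ℕ => ¬ (p : ℝ) ≤ y), 1 / y := by
      apply Finset.sum_le_sum
      intro p hp
      rw [Finset.mem_filter, not_le] at hp
      exact one_div_le_one_div_of_le (by linarith) hp.2.le
    have h4 : (((m.primeFactors.filter (fun p : ℕ => ¬ (p : ℝ) ≤ y)).card : ℕ) : ℝ)
        ≤ Real.log m / Real.log 2 := by
      have h5 : (m.primeFactors.filter (fun p : ℕ => ¬ (p : ℝ) ≤ y)).card ≤ m.primeFactors.card :=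
        Finset.card_filter_le _ _
      have h6 : ((2 : ℝ)) ^ m.primeFactors.card ≤ m := by
        exact_mod_cast two_pow_card_primeFactors_le hm
      have h7 := Real.log_le_log (by positivity) h6
      rw [Real.log_pow] at h7
      rw [le_div_iff₀ hl2]
      refine le_trans ?_ h7
      have h8 : (((m.primeFactors.filter (fun p : ℕ => ¬ (p : ℝ) ≤ y)).card : ℕ) : ℝ)
          ≤ (m.primeFactors.card : ℝ) := by exact_mod_cast h5
      exact mul_le_mul_of_nonneg_right h8 hl2.le
    refine h3.trans ?_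
    rw [Finset.sum_const, nsmul_eq_mul]
    calc (((m.primeFactors.filter (fun p : ℕ => ¬ (p : ℝ) ≤ y)).card : ℕ) : ℝ) * (1 / y)
        ≤ (Real.log m / Real.log 2) * (1 / y) := by
          apply mul_le_mul_of_nonneg_right h4
          positivity
      _ = (Real.log m / y) * (1 / Real.log 2) := by ring
      _ ≤ 1 * (1 / Real.log 2) := by
          apply mul_le_mul_of_nonneg_right _ (by positivity)
          rw [div_le_one (by linarith)]
          linarith
      _ = 1 / Real.log 2 := one_mul _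
  have h9 : Real.log (Real.log y / Real.log 2)
      = Real.log (Real.log y) - Real.log (Real.log 2) := Real.log_div hly.ne' hl2.ne'
  have h10 : -Real.log (Real.log 2) ≤ |Real.log (Real.log 2)| := neg_le_abs _
  rw [h9] at h1
  linarith

end Pool.Agent.Lib.MP_92a7e5_nt.NG
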