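import Pool.Agent.Lib.MP_92a7e5_nt.NG.Triples
import Pool.Agent.Lib.MP_92a7e5_nt.NG.Radical

set_option autoImplicit false

namespace Pool.Agent.Lib.MP_92a7e5_nt.NG

open Finset Real

/-- the prime gaps as natural numbers -/
noncomputable def g (k : ℕ) : ℕ := Nat.nth Nat.Prime (k + 1) - Nat.nth Nat.Prime k

lemma nth_lt (k : ℕ) : Nat.nth Nat.Prime k < Nat.nth Nat.Prime (k + 1) :=
  Nat.nth_strictMono Nat.infinite_setOfPred_prime (by omega)

lemma nth_add (k : ℕ) : Nat.nth Nat.Prime k + g k = Nat.nth Nat.Prime (k + 1) := by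
  unfold g
  have := nth_lt k
  omega

lemma g_pos (k : ℕ) : 0 < g k := by
  have := nth_lt k
  unfold g
  omega

lemma nth_odd {k : ℕ} (hk : 1 ≤ k) : Nat.nth Nat.Prime k % 2 = 1 := by
  have h1 : Nat.nth Nat.Prime 0 < Nat.nth Nat.Prime k :=
    Nat.nth_strictMono Nat.infinite_setOfPred_prime (by omega)
  rw [Nat.nth_prime_zero_eq_two] at h1
  rcases (Nat.prime_nth_prime k).eq_two_or_odd with h | h
  · omega
  · exact h

lemma g_even {k : ℕ} (hk : 1 ≤ k) : 2 ∣ g k := by
  have h1 := nth_odd hk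
  have h2 := nth_odd (show 1 ≤ k + 1 by omega)
  have h3 := nth_add k
  omega

/-- indices `1 ≤ k < N` with consecutive gaps `a`, `b` -/
noncomputable def cnt (N a b : ℕ) : ℕ :=
  ((Finset.Ico 1 N).filter (fun k => g k = a ∧ g (k + 1) = b)).card

lemma nth_ge (k : ℕ) : k + 2 ≤ Nat.nth Nat.Prime k := by
  induction k with
  | zero => rw [Nat.nth_prime_zero_eq_two]
  | succ n ih => have := nth_lt n; omega

lemma nth_le (N : ℕ) : (Nat.nth Nat.Prime N : ℝ) ≤ 24 * ((N + 2 : ℝ) * log (N + 2)) := by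
  set p := Nat.nth Nat.Prime N with hp
  have hpp : p.Prime := Nat.prime_nth_prime N
  have h2 : 2 ≤ p := hpp.two_le
  have hcount : Nat.primeCounting p = N + 1 := by
    have h1 : Nat.count Nat.Prime p = N := by
      rw [hp]; exact Nat.count_nth_of_infinite Nat.infinite_setOfPred_prime N
    rw [Nat.primeCounting, Nat.primeCounting', Nat.count_succ, if_pos hpp, h1]
  have hge := Chebyshev.pi_ge p
  rw [hcount] at hge
  have hp2 : (2 : ℝ) ≤ p := by exact_mod_cast h2
  have hlogp : 0 < log p := log_pos (by linarith)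
  rw [div_le_iff₀ hlogp] at hge
  push_cast at hge
  set P : ℝ := (p : ℝ) + 1 with hP
  have hlP : log p ≤ log P := log_le_log (by linarith) (by linarith)
  have hlP0 : 0 < log P := log_pos (by linarith)
  have hN0 : (0 : ℝ) ≤ N := Nat.cast_nonneg N
  have hl2 := Real.log_two_gt_d9
  have hl2' := Real.log_two_lt_d9
  have h3 : (p : ℝ) * log 2 ≤ (N + 2) * log P := by nlinarith
  have h4 : P ≤ 3 * ((N + 2) * log P) := by nlinarith
  have hs : log P ≤ 2 * √P := by
    have h5 : log P = 2 * log (√P) := by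
      rw [Real.log_sqrt (by linarith)]; ring
    have h6 := Real.log_le_sub_one_of_pos (Real.sqrt_pos.2 (show 0 < P by linarith))
    linarith
  have hsq : √P * √P = P := Real.mul_self_sqrt (by linarith)
  have hs0 : 0 < √P := Real.sqrt_pos.2 (by linarith)
  have h7 : √P ≤ 6 * (N + 2) := by
    by_contra hc
    push Not at hc
    nlinarith
  have h8 : P ≤ 64 * (N + 2) ^ 2 := by nlinarith
  have h9 : log P ≤ 8 * log (N + 2) := by
    have h10 : log P ≤ log (2 ^ 6 * (N + 2) ^ 2) :=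
      log_le_log (by linarith) (by norm_num; exact h8)
    rw [Real.log_mul (by norm_num) (by positivity), Real.log_pow, Real.log_pow] at h10
    have h20 : log 2 ≤ log ((N : ℝ) + 2) := log_le_log (by norm_num) (by linarith)
    push_cast at h10
    linarith
  nlinarith

/-- the iterated logarithm used for a block -/
noncomputable def bt (K : ℕ) : ℝ := 1 + log (1 + ((K : ℝ) + 1) / 3)

lemma bt_ge (K : ℕ) : 1 ≤ bt K := by
  unfold bt
  have hk : (0 : ℝ) ≤ K := Nat.cast_nonneg K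
  have := log_nonneg (show (1 : ℝ) ≤ 1 + ((K : ℝ) + 1) / 3 by linarith)
  linarith

lemma log_le_bt (K : ℕ) : log ((K : ℝ) + 3) ≤ 2 * bt K := by
  have hk : (0 : ℝ) ≤ K := Nat.cast_nonneg K
  have h1 : log ((K : ℝ) + 3) ≤ log (3 * (1 + ((K : ℝ) + 1) / 3)) :=
    log_le_log (by positivity) (by linarith)
  rw [Real.log_mul (by norm_num) (by positivity)] at h1
  have h2 : log 3 ≤ 2 := by
    have := Real.log_le_sub_one_of_pos (show (0 : ℝ) < 3 by norm_num)
    linarith
  have h3 := bt_ge K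
  unfold bt at h3 ⊢
  linarith

/-- few indices have two given consecutive gaps -/
theorem cnt_le (ε : ℝ) (hε : 0 < ε) : ∃ C : ℝ, 0 < C ∧ ∃ K0 : ℕ, ∀ K : ℕ, K0 ≤ K →
    ∀ a b : ℕ, a ≤ (K + 3) ^ 2 → b ≤ (K + 3) ^ 2 →
    (cnt (2 ^ (K + 1)) a b : ℝ) ≤ C * (2 ^ K / ((K : ℝ) + 1) ^ 2 * bt K ^ ε) := by
  obtain ⟨C1, hC1, X0, h1⟩ := triples_count
  obtain ⟨C2, hC2, h2⟩ := primeFactors_sum_le
  set δ : ℝ := ε / 3 with hδ
  have hδ0 : 0 < δ := by positivity
  set C3 : ℝ := Real.exp (3 * C2) * ((20 : ℝ) ^ δ / δ) ^ 3 with hC3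
  have hC30 : 0 < C3 := by positivity
  refine ⟨C1 * 1000 * C3, by positivity, X0 + 1, fun K hK a b ha hb => ?_⟩
  have hbt := bt_ge K
  have hK0 : (0 : ℝ) ≤ K := Nat.cast_nonneg K
  have hrhs : 0 ≤ C1 * 1000 * C3 * (2 ^ K / ((K : ℝ) + 1) ^ 2 * bt K ^ ε) := by positivity
  by_cases hab : (0 < a ∧ 2 ∣ a) ∧ (0 < b ∧ 2 ∣ b)
  swap
  · have : cnt (2 ^ (K + 1)) a b = 0 := by
      unfold cnt
      rw [Finset.card_eq_zero, Finset.filter_eq_empty_iff]
      rintro k hk ⟨e1, e2⟩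
      have hk1 := (Finset.mem_Ico.1 hk).1
      exact hab ⟨⟨e1 ▸ g_pos k, e1 ▸ g_even hk1⟩, ⟨e2 ▸ g_pos _, e2 ▸ g_even (by omega)⟩⟩
    rw [this]
    simpa using hrhs
  obtain ⟨⟨ha0, ha2⟩, hb0, hb2⟩ := hab
  set N : ℕ := 2 ^ (K + 1) with hN
  set X : ℕ := Nat.nth Nat.Prime N with hX
  have hNX : N ≤ X := by have := nth_ge N; omega
  have hKN : K < N := by
    rw [hN, pow_succ]
    have : K < 2 ^ K := Nat.lt_two_pow_self
    omega
  have hcard : cnt N a b ≤ ((Finset.Icc 1 X).filter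
      (fun x => x.Prime ∧ (x + a).Prime ∧ (x + a + b).Prime)).card := by
    unfold cnt
    refine Finset.card_le_card_of_injOn (fun k => Nat.nth Nat.Prime k) ?_ ?_
    · intro k hk
      simp only [Finset.coe_filter, Finset.mem_Ico, Set.mem_ofPred_eq] at hk
      obtain ⟨⟨hk1, hk2⟩, e1, e2⟩ := hk
      simp only [Finset.coe_filter, Finset.mem_Icc, Set.mem_ofPred_eq]
      have e3 : Nat.nth Nat.Prime k + a = Nat.nth Nat.Prime (k + 1) := by rw [← e1]; exact nth_add k
      have e4 : Nat.nth Nat.Prime (k + 1) + b = Nat.nth Nat.Prime (k + 1 + 1) := by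
        rw [← e2]; exact nth_add (k + 1)
      refine ⟨⟨(Nat.prime_nth_prime k).one_lt.le, ?_⟩, Nat.prime_nth_prime k, ?_, ?_⟩
      · exact (Nat.nth_strictMono Nat.infinite_setOfPred_prime).monotone (by omega)
      · rw [e3]; exact Nat.prime_nth_prime _
      · rw [e3, e4]; exact Nat.prime_nth_prime _
    · intro k _ k' _ hkk
      exact (Nat.nth_strictMono Nat.infinite_setOfPred_prime).injective hkk
  have hm1 : 1 ≤ a * b * (a + b) := Nat.mul_pos (Nat.mul_pos ha0 hb0) (by omega)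
  have h3 := h1 X (by omega) a b ha0 hb0 ha2 hb2
  have h4 := h2 (a * b * (a + b)) hm1
  -- the singular series
  have hm : (((a * b * (a + b) : ℕ)) : ℝ) ≤ 2 * ((K : ℝ) + 3) ^ 6 := by
    have : a * b * (a + b) ≤ 2 * (K + 3) ^ 6 := by
      calc a * b * (a + b) ≤ (K + 3) ^ 2 * (K + 3) ^ 2 * ((K + 3) ^ 2 + (K + 3) ^ 2) := by gcongr
        _ = _ := by ring
    exact_mod_cast this
  have hm0 : (1 : ℝ) ≤ ((a * b * (a + b) : ℕ) : ℝ) := by exact_mod_cast hm1
  have hlogm : log ((a * b * (a + b) : ℕ) : ℝ) + 3 ≤ 20 * bt K := by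
    have e1 : log ((a * b * (a + b) : ℕ) : ℝ) ≤ log (2 * ((K : ℝ) + 3) ^ 6) :=
      log_le_log (by linarith) hm
    rw [Real.log_mul (by norm_num) (by positivity), Real.log_pow] at e1
    have e2 := log_le_bt K
    have e3 := Real.log_two_lt_d9
    push_cast at e1 ⊢
    linarith
  have hlogm0 : 0 ≤ log ((a * b * (a + b) : ℕ) : ℝ) := log_nonneg hm0
  set M : ℝ := log ((a * b * (a + b) : ℕ) : ℝ) + 3 with hM
  have hlM : 0 < log M := log_pos (by linarith)
  have hexp : Real.exp (3 * ∑ p ∈ (a * b * (a + b)).primeFactors, (1 : ℝ) / p) ≤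
      C3 * bt K ^ ε := by
    calc Real.exp (3 * ∑ p ∈ (a * b * (a + b)).primeFactors, (1 : ℝ) / p)
        ≤ Real.exp (3 * (log (log M) + C2)) := by
          apply Real.exp_le_exp.2
          linarith
      _ = Real.exp (3 * C2) * (log M) ^ 3 := by
          rw [mul_add, Real.exp_add, mul_comm]
          congr 1
          rw [show (3 : ℝ) * log (log M) = ((3 : ℕ) : ℝ) * log (log M) by norm_num,
            Real.exp_nat_mul, Real.exp_log hlM]
      _ ≤ Real.exp (3 * C2) * ((20 * bt K) ^ δ / δ) ^ 3 := by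
          have e1 : log M ≤ (20 * bt K) ^ δ / δ :=
            (log_le_log (by linarith) hlogm).trans
              (Real.log_le_rpow_div (by linarith) hδ0)
          gcongr
      _ = C3 * bt K ^ ε := by
          rw [Real.mul_rpow (by norm_num) (by linarith), hC3]
          have e2 : bt K ^ ε = (bt K ^ δ) ^ 3 := by
            rw [← Real.rpow_natCast, ← Real.rpow_mul (by linarith)]
            congr 1
            rw [hδ]; push_cast; ring
          rw [e2]
          ring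
  -- the size of X
  have hlogX : ((K : ℝ) + 1) / 2 ≤ log X := by
    have e1 : log (N : ℝ) ≤ log X := log_le_log (by rw [hN]; positivity) (by exact_mod_cast hNX)
    rw [hN] at e1
    push_cast at e1
    rw [Real.log_pow] at e1
    push_cast at e1
    have e2 := Real.log_two_gt_d9
    nlinarith
  have hXle : (X : ℝ) ≤ 120 * (2 ^ K * ((K : ℝ) + 1)) := by
    have e1 := nth_le N
    have e2 : (N : ℝ) + 2 ≤ 2 ^ (K + 2) := by
      have : N + 2 ≤ 2 ^ (K + 2) := by
        rw [hN]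
        have e3 : 2 ^ (K + 2) = 2 ^ (K + 1) + 2 ^ (K + 1) := by ring
        have e4 : 2 ≤ 2 ^ (K + 1) := by
          calc 2 = 2 ^ 1 := rfl
            _ ≤ 2 ^ (K + 1) := Nat.pow_le_pow_right (by norm_num) (by omega)
        omega
      exact_mod_cast this
    have e3 : log ((N : ℝ) + 2) ≤ (K + 2) * 0.7 := by
      have e4 : log ((N : ℝ) + 2) ≤ log ((2 : ℝ) ^ (K + 2)) :=
        log_le_log (by positivity) e2
      rw [Real.log_pow] at e4
      push_cast at e4
      have e5 := Real.log_two_lt_d9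
      nlinarith
    have hl0 : 0 ≤ log ((N : ℝ) + 2) := log_nonneg (by
      have : (0 : ℝ) ≤ N := Nat.cast_nonneg N
      linarith)
    calc (X : ℝ) ≤ 24 * ((N + 2 : ℝ) * log (N + 2)) := e1
      _ ≤ 24 * (2 ^ (K + 2) * ((K + 2) * 0.7)) := by gcongr
      _ ≤ 120 * (2 ^ K * ((K : ℝ) + 1)) := by
          have e6 : (2 : ℝ) ^ (K + 2) = 4 * 2 ^ K := by ring
          rw [e6]
          have e7 : (0 : ℝ) < 2 ^ K := by positivity
          have e8 : 24 * (4 * (2 : ℝ) ^ K * ((K + 2) * 0.7)) = 2 ^ K * (67.2 * (K + 2)) := by ring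
          have e9 : 120 * ((2 : ℝ) ^ K * ((K : ℝ) + 1)) = 2 ^ K * (120 * (K + 1)) := by ring
          rw [e8, e9]
          have hK1 : (1 : ℝ) ≤ K := by exact_mod_cast (by omega : 1 ≤ K)
          exact mul_le_mul_of_nonneg_left (by linarith) e7.le
  have hfin : (X : ℝ) / log X ^ 3 ≤ 1000 * (2 ^ K / ((K : ℝ) + 1) ^ 2) := by
    have e0 : 0 < (((K : ℝ) + 1) / 2) ^ 3 := by positivity
    calc (X : ℝ) / log X ^ 3 ≤ 120 * (2 ^ K * ((K : ℝ) + 1)) / (((K : ℝ) + 1) / 2) ^ 3 := by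
          gcongr
      _ = 960 * (2 ^ K / ((K : ℝ) + 1) ^ 2) := by
          field_simp
          ring
      _ ≤ _ := by
          have : (0 : ℝ) ≤ 2 ^ K / ((K : ℝ) + 1) ^ 2 := by positivity
          linarith
  have hcard' : (cnt N a b : ℝ) ≤ (((Finset.Icc 1 X).filter
      (fun x => x.Prime ∧ (x + a).Prime ∧ (x + a + b).Prime)).card : ℝ) := by
    exact_mod_cast hcard
  have hlX0 : 0 < log X := lt_of_lt_of_le (by positivity) hlogX
  calc (cnt N a b : ℝ) ≤ C1 * (X / log X ^ 3) *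
        Real.exp (3 * ∑ p ∈ (a * b * (a + b)).primeFactors, (1 : ℝ) / p) := hcard'.trans h3
    _ ≤ C1 * (1000 * (2 ^ K / ((K : ℝ) + 1) ^ 2)) * (C3 * bt K ^ ε) := by gcongr
    _ = _ := by ring

end Pool.Agent.Lib.MP_92a7e5_nt.NG
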