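import Mathlib

set_option autoImplicit false

/-!
Large gaps: summation by parts and Chebyshev's bound.
-/

namespace Pool.Agent.Lib.MP_92a7e5_nt.NG.Large

open Filter Topology Real

/-- the `(k+1)`-st prime, as a real number -/
noncomputable def pr (k : ℕ) : ℝ := (Nat.nth Nat.Prime k : ℝ)

/-- the prime gap `g_(k+1) = p_(k+2) - p_(k+1)` -/
noncomputable def gap (k : ℕ) : ℝ := pr (k + 1) - pr k

lemma gap_pos (k : ℕ) : 0 < gap k := by
  unfold gap pr
  have : Nat.nth Nat.Prime k < Nat.nth Nat.Prime (k + 1) :=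
    Nat.nth_strictMono Nat.infinite_setOfPred_prime (by omega)
  have : (Nat.nth Nat.Prime k : ℝ) < (Nat.nth Nat.Prime (k + 1) : ℝ) := by exact_mod_cast this
  linarith

lemma pr_le (N : ℕ) : pr N ≤ 24 * ((N + 2 : ℝ) * log (N + 2)) := by
  set p := Nat.nth Nat.Prime N with hp
  have hpp : p.Prime := Nat.prime_nth_prime N
  have h2 : 2 ≤ p := hpp.two_le
  have hcount : Nat.primeCounting p = N + 1 := by
    have h1 : Nat.count Nat.Prime p = N := by
      rw [hp]; exact Nat.count_nth_of_infinite Nat.infinite_setOfPred_prime N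
    rw [Nat.primeCounting, Nat.primeCounting', Nat.count_succ, if_pos hpp, h1]
  have hge := Chebyshev.pi_ge p
  rw [hcount] at hge
  have hp2 : (2 : ℝ) ≤ p := by exact_mod_cast h2
  have hlogp : 0 < log p := log_pos (by linarith)
  rw [div_le_iff₀ hlogp] at hge
  push_cast at hge
  set P : ℝ := (p : ℝ) + 1 with hP
  have hlP : log p ≤ log P := log_le_log (by linarith) (by linarith)
  have hlP0 : 0 < log P := log_pos (by linarith)
  have hN0 : (0 : ℝ) ≤ N := Nat.cast_nonneg N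
  have hl2 := Real.log_two_gt_d9
  have hl2' := Real.log_two_lt_d9
  have h3 : (p : ℝ) * log 2 ≤ (N + 2) * log P := by nlinarith
  have h4 : P ≤ 3 * ((N + 2) * log P) := by nlinarith
  -- crude bound
  have hs : log P ≤ 2 * √P := by
    have h5 : log P = 2 * log (√P) := by
      rw [Real.log_sqrt (by linarith)]; ring
    have h6 := Real.log_le_sub_one_of_pos (Real.sqrt_pos.2 (show 0 < P by linarith))
    linarith
  have hsq : √P * √P = P := Real.mul_self_sqrt (by linarith)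
  have hs0 : 0 < √P := Real.sqrt_pos.2 (by linarith)
  have h7 : √P ≤ 6 * (N + 2) := by
    by_contra hc
    push Not at hc
    nlinarith
  have h8 : P ≤ 64 * (N + 2) ^ 2 := by nlinarith
  have h9 : log P ≤ 8 * log (N + 2) := by
    have h10 : log P ≤ log (2 ^ 6 * (N + 2) ^ 2) :=
      log_le_log (by linarith) (by norm_num; exact h8)
    rw [Real.log_mul (by norm_num) (by positivity), Real.log_pow, Real.log_pow] at h10
    have h20 : log 2 ≤ log ((N : ℝ) + 2) := log_le_log (by norm_num) (by linarith)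
    push_cast at h10
    linarith
  have : pr N = (p : ℝ) := rfl
  rw [this]
  nlinarith

/-- summation by parts against a nonincreasing weight -/
lemma sum_le_of_partial {a B w : ℕ → ℝ} (hw : Antitone w) (hw0 : ∀ k, 0 ≤ w k)
    (hB : ∀ N, ∑ k ∈ Finset.range N, a k ≤ B N) (N : ℕ) :
    ∑ k ∈ Finset.range N, a k * w k ≤
      B 0 * w 0 + ∑ k ∈ Finset.range N, (B (k + 1) - B k) * w k := by
  have key : ∀ N, (B N - ∑ k ∈ Finset.range N, a k) * w N ≤
      B 0 * w 0 + ∑ k ∈ Finset.range N, (B (k + 1) - B k) * w k -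
        ∑ k ∈ Finset.range N, a k * w k := by
    intro N
    induction N with
    | zero => simp
    | succ N ih =>
      rw [Finset.sum_range_succ, Finset.sum_range_succ, Finset.sum_range_succ (fun k => a k * w k)]
      have h1 := hB (N + 1)
      rw [Finset.sum_range_succ] at h1
      have h2 : w (N + 1) ≤ w N := hw (Nat.le_succ N)
      have h3 : (B (N + 1) - (∑ k ∈ Finset.range N, a k + a N)) * w (N + 1) ≤
          (B (N + 1) - (∑ k ∈ Finset.range N, a k + a N)) * w N :=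
        mul_le_mul_of_nonneg_left h2 (by linarith)
      nlinarith
  have h1 := key N
  have h2 : 0 ≤ (B N - ∑ k ∈ Finset.range N, a k) * w N :=
    mul_nonneg (by linarith [hB N]) (hw0 N)
  linarith

lemma sum_gap (N : ℕ) : ∑ k ∈ Finset.range N, gap (k + 1) = pr (N + 1) - pr 1 := by
  induction N with
  | zero => simp
  | succ N ih => rw [Finset.sum_range_succ, ih, gap]; ring

/-- the increments of `24 (N + 3) log (N + 3)` -/
lemma incr_le (k : ℕ) : 24 * (((k + 1 : ℕ) + 3 : ℝ) * log ((k + 1 : ℕ) + 3)) -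
    24 * ((k + 3 : ℝ) * log (k + 3)) ≤ 96 * log (k + 2) := by
  have hk : (0 : ℝ) ≤ k := Nat.cast_nonneg k
  push_cast
  rw [show (k : ℝ) + 1 + 3 = k + 4 by ring]
  have h1 : log ((k : ℝ) + 4) ≤ log (k + 3) + 1 / (k + 3) := by
    have h2 : log ((k : ℝ) + 4) = log (k + 3) + log ((k + 4) / (k + 3)) := by
      rw [Real.log_div (by positivity) (by positivity)]; ring
    have h3 := Real.log_le_sub_one_of_pos (show (0 : ℝ) < ((k : ℝ) + 4) / (k + 3) by positivity)
    have h4 : ((k : ℝ) + 4) / (k + 3) - 1 = 1 / (k + 3) := by field_simp; ring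
    linarith
  have h5 : log ((k : ℝ) + 4) ≤ 2 * log (k + 2) := by
    have h6 : log ((k : ℝ) + 4) ≤ log (2 * (k + 2)) := log_le_log (by positivity) (by linarith)
    rw [Real.log_mul (by norm_num) (by positivity)] at h6
    have h7 : log 2 ≤ log ((k : ℝ) + 2) := log_le_log (by norm_num) (by linarith)
    linarith
  have h8 : (1 : ℝ) ≤ 2 * log (k + 2) := by
    have h7 : log 2 ≤ log ((k : ℝ) + 2) := log_le_log (by norm_num) (by linarith)
    have := Real.log_two_gt_d9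
    linarith
  have h9 : ((k : ℝ) + 3) * log (k + 4) ≤ (k + 3) * log (k + 3) + 1 := by
    have h10 : ((k : ℝ) + 3) * (1 / (k + 3)) = 1 := by field_simp
    nlinarith
  nlinarith

variable {h : ℕ → ℝ}

/-- the weight -/
noncomputable def wt (h : ℕ → ℝ) (k : ℕ) : ℝ :=
  1 / ((k + 2 : ℝ) * (h (k + 2) * log (k + 2)) ^ 2)

lemma log_pos' (k : ℕ) : 0 < log ((k : ℝ) + 2) := log_pos (by
  have : (0 : ℝ) ≤ k := Nat.cast_nonneg k
  linarith)

lemma wt_nonneg (k : ℕ) : 0 ≤ wt h k := by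
  unfold wt; positivity

lemma wt_anti (hpos : ∀ n, 0 < h n) (hmono : Monotone h) : Antitone (wt h) := by
  intro i j hij
  unfold wt
  have hi : (0 : ℝ) ≤ i := Nat.cast_nonneg i
  have hij' : (i : ℝ) ≤ j := by exact_mod_cast hij
  have h1 := hpos (i + 2)
  have h2 : h (i + 2) ≤ h (j + 2) := hmono (by omega)
  have h3 := log_pos' i
  have h4 : log ((i : ℝ) + 2) ≤ log (j + 2) := log_le_log (by positivity) (by linarith)
  have h5 := (hpos (j + 2)).le
  gcongr

lemma summable_gap (hpos : ∀ n, 0 < h n) (hmono : Monotone h)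
    (hsum : Summable (fun n : ℕ => 1 / ((n : ℝ) * log n * h n ^ 2))) :
    Summable (fun k => gap (k + 1) * wt h k) := by
  have hs2 : Summable (fun k : ℕ => 96 * (1 / (((k + 2 : ℕ) : ℝ) * log ((k + 2 : ℕ) : ℝ) *
      h (k + 2) ^ 2))) := ((summable_nat_add_iff 2).2 hsum).mul_left 96
  set B : ℕ → ℝ := fun N => 24 * ((N + 3 : ℝ) * log (N + 3)) with hB
  refine summable_of_sum_range_le (c := B 0 * wt h 0 + ∑' k : ℕ, 96 * (1 / (((k + 2 : ℕ) : ℝ) *
    log ((k + 2 : ℕ) : ℝ) * h (k + 2) ^ 2)))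
    (fun k => mul_nonneg (gap_pos _).le (wt_nonneg k)) (fun N => ?_)
  have h1 := sum_le_of_partial (a := fun k => gap (k + 1)) (B := B) (wt_anti hpos hmono)
    wt_nonneg (fun N => by
      rw [sum_gap]
      have h2 := pr_le (N + 1)
      have h3 : 0 ≤ pr 1 := Nat.cast_nonneg _
      push_cast at h2
      rw [show (N : ℝ) + 1 + 2 = N + 3 by ring] at h2
      simp only [hB]
      linarith) N
  refine h1.trans ?_
  have h4 : ∑ k ∈ Finset.range N, (B (k + 1) - B k) * wt h k ≤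
      ∑ k ∈ Finset.range N, 96 * (1 / (((k + 2 : ℕ) : ℝ) * log ((k + 2 : ℕ) : ℝ) *
        h (k + 2) ^ 2)) := by
    refine Finset.sum_le_sum fun k _ => ?_
    have h5 : B (k + 1) - B k ≤ 96 * log (k + 2) := incr_le k
    have h6 := wt_nonneg (h := h) k
    have h7 := log_pos' k
    have h8 := hpos (k + 2)
    have hk : (0 : ℝ) ≤ k := Nat.cast_nonneg k
    calc (B (k + 1) - B k) * wt h k ≤ 96 * log (k + 2) * wt h k := by gcongr
      _ = _ := by
        unfold wt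
        push_cast
        field_simp
  have h9 : ∑ k ∈ Finset.range N, 96 * (1 / (((k + 2 : ℕ) : ℝ) * log ((k + 2 : ℕ) : ℝ) *
        h (k + 2) ^ 2)) ≤ ∑' k : ℕ, 96 * (1 / (((k + 2 : ℕ) : ℝ) *
          log ((k + 2 : ℕ) : ℝ) * h (k + 2) ^ 2)) := by
    refine hs2.sum_le_tsum _ (fun k _ => ?_)
    have h7 := log_pos' k
    push_cast
    positivity
  linarith

/-- the terms with a large gap -/
noncomputable def large (h : ℕ → ℝ) (k : ℕ) : ℝ :=
  if h (k + 1) * log ((k : ℝ) + 1) ≤ gap k then 1 / (((k : ℝ) + 1) * gap k) else 0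

lemma large_nonneg (k : ℕ) : 0 ≤ large h k := by
  unfold large
  split_ifs
  · have := gap_pos k
    positivity
  · exact le_rfl

lemma large_le (hpos : ∀ n, 0 < h n) (k : ℕ) : large h (k + 1) ≤ gap (k + 1) * wt h k := by
  unfold large
  split_ifs with hl
  · have h1 := gap_pos (k + 1)
    have h2 := log_pos' k
    have h3 := hpos (k + 2)
    rw [show k + 1 + 1 = k + 2 by ring] at hl
    push_cast at hl ⊢
    rw [show (k : ℝ) + 1 + 1 = k + 2 by ring] at hl ⊢
    unfold wt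
    have h4 : 0 < h (k + 2) * log ((k : ℝ) + 2) := mul_pos h3 h2
    rw [mul_one_div, div_le_div_iff₀ (by positivity) (by positivity), one_mul]
    have h5 : (h (k + 2) * log ((k : ℝ) + 2)) ^ 2 ≤ gap (k + 1) ^ 2 := by gcongr
    have hk : (0 : ℝ) ≤ k := Nat.cast_nonneg k
    calc ((k : ℝ) + 2) * (h (k + 2) * log ((k : ℝ) + 2)) ^ 2 ≤ ((k : ℝ) + 2) * gap (k + 1) ^ 2 := by
          gcongr
      _ = gap (k + 1) * (((k : ℝ) + 2) * gap (k + 1)) := by ring
  · exact mul_nonneg (gap_pos _).le (wt_nonneg k)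

lemma summable_large (hpos : ∀ n, 0 < h n) (hmono : Monotone h)
    (hsum : Summable (fun n : ℕ => 1 / ((n : ℝ) * log n * h n ^ 2))) :
    Summable (large h) :=
  (summable_nat_add_iff 1).1 (Summable.of_nonneg_of_le (fun k => large_nonneg (k + 1))
    (fun k => large_le hpos k) (summable_gap hpos hmono hsum))

/-- an explicit admissible function, `(1 + log (1 + log (n + 1)))^c` -/
noncomputable def H (c : ℝ) (n : ℕ) : ℝ := (1 + log (1 + log ((n : ℝ) + 1))) ^ c

lemma base_pos (n : ℕ) : 1 ≤ 1 + log (1 + log ((n : ℝ) + 1)) := by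
  have h0 : (0 : ℝ) ≤ n := Nat.cast_nonneg n
  have h1 : 0 ≤ log ((n : ℝ) + 1) := log_nonneg (by linarith)
  have h2 : 0 ≤ log (1 + log ((n : ℝ) + 1)) := log_nonneg (by linarith)
  linarith

lemma base_mono {m n : ℕ} (h : m ≤ n) :
    1 + log (1 + log ((m : ℝ) + 1)) ≤ 1 + log (1 + log ((n : ℝ) + 1)) := by
  have h0 : (0 : ℝ) ≤ m := Nat.cast_nonneg m
  have hmn : (m : ℝ) ≤ n := by exact_mod_cast h
  have h1 : 0 ≤ log ((m : ℝ) + 1) := log_nonneg (by linarith)
  have h2 : log ((m : ℝ) + 1) ≤ log ((n : ℝ) + 1) := log_le_log (by linarith) (by linarith)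
  have h3 : log (1 + log ((m : ℝ) + 1)) ≤ log (1 + log ((n : ℝ) + 1)) :=
    log_le_log (by linarith) (by linarith)
  linarith

lemma H_pos (c : ℝ) (n : ℕ) : 0 < H c n :=
  rpow_pos_of_pos (by linarith [base_pos n]) c

lemma H_mono {c : ℝ} (hc : 0 ≤ c) : Monotone (H c) := fun m n h =>
  rpow_le_rpow (by linarith [base_pos m]) (base_mono h) hc

lemma two_pow_log {k : ℕ} {x : ℝ} (hx : (2 : ℝ) ^ k + 2 ≤ x) : ((k : ℝ) + 1) / 3 ≤ log x := by
  have hl := Real.log_two_gt_d9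
  have hp : (0 : ℝ) < 2 ^ k := by positivity
  have h1 : (k : ℝ) * log 2 ≤ log x := by
    rw [← Real.log_pow]
    exact log_le_log hp (by linarith)
  have h2 : log 2 ≤ log x := log_le_log (by norm_num) (by linarith)
  have hk : (0 : ℝ) ≤ k := Nat.cast_nonneg k
  nlinarith

lemma H_sum {c : ℝ} (hc : 1 / 2 < c) :
    Summable (fun n : ℕ => 1 / ((n : ℝ) * log n * H c n ^ 2)) := by
  rw [← summable_nat_add_iff 2]
  have hs : 0 < 2 * c := by linarith
  have e : ∀ n : ℕ, H c n ^ 2 = (1 + log (1 + log ((n : ℝ) + 1))) ^ (2 * c) := by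
    intro n
    unfold H
    rw [← rpow_natCast, ← rpow_mul (by linarith [base_pos n])]
    congr 1
    push_cast
    ring
  set f : ℕ → ℝ := fun n => 1 / (((n + 2 : ℕ) : ℝ) * log ((n + 2 : ℕ) : ℝ) * H c (n + 2) ^ 2)
    with hf
  have hlog : ∀ n : ℕ, 0 < log ((n + 2 : ℕ) : ℝ) := fun n => log_pos (by
    push_cast
    have : (0 : ℝ) ≤ n := Nat.cast_nonneg n
    linarith)
  have hf0 : ∀ n, 0 ≤ f n := fun n => by
    have := hlog n
    have := H_pos c (n + 2)
    simp only [hf]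
    positivity
  have hfm : ∀ ⦃m n : ℕ⦄, 0 < m → m ≤ n → f n ≤ f m := by
    intro m n _ hmn
    have h1 := hlog m
    have h2 := H_pos c (m + 2)
    have h3 : H c (m + 2) ≤ H c (n + 2) := H_mono (by linarith) (by omega)
    have h4 : ((m + 2 : ℕ) : ℝ) ≤ ((n + 2 : ℕ) : ℝ) := by exact_mod_cast (by omega)
    have h5 : log ((m + 2 : ℕ) : ℝ) ≤ log ((n + 2 : ℕ) : ℝ) :=
      log_le_log (by positivity) h4
    have h6 := H_pos c (n + 2)
    simp only [hf]
    gcongr
  change Summable f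
  rw [← summable_condensed_iff_of_nonneg hf0 hfm]
  -- second level
  set g : ℕ → ℝ := fun k => 1 / (((k : ℝ) + 1) * (1 + log (1 + ((k : ℝ) + 1) / 3)) ^ (2 * c))
    with hg
  have hgb : ∀ k : ℕ, 1 ≤ 1 + log (1 + ((k : ℝ) + 1) / 3) := fun k => by
    have hk : (0 : ℝ) ≤ k := Nat.cast_nonneg k
    have := log_nonneg (show (1 : ℝ) ≤ 1 + ((k : ℝ) + 1) / 3 by linarith)
    linarith
  have hg0 : ∀ k, 0 ≤ g k := fun k => by
    have := hgb k
    have : 0 < (1 + log (1 + ((k : ℝ) + 1) / 3)) ^ (2 * c) := rpow_pos_of_pos (by linarith) _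
    simp only [hg]
    positivity
  have hfg : ∀ k : ℕ, (2 : ℝ) ^ k * f (2 ^ k) ≤ 3 * g k := by
    intro k
    have hk : (0 : ℝ) ≤ k := Nat.cast_nonneg k
    have hp : (0 : ℝ) < 2 ^ k := by positivity
    have h1 : ((k : ℝ) + 1) / 3 ≤ log ((2 ^ k + 2 : ℕ) : ℝ) := two_pow_log (by push_cast; exact le_rfl)
    have h2 : ((k : ℝ) + 1) / 3 ≤ log (((2 ^ k + 2 : ℕ) : ℝ) + 1) :=
      two_pow_log (by push_cast; linarith)
    have h3 : (1 + log (1 + ((k : ℝ) + 1) / 3)) ^ (2 * c) ≤ H c (2 ^ k + 2) ^ 2 := by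
      rw [e]
      refine rpow_le_rpow (by linarith [hgb k]) ?_ hs.le
      have : log (1 + ((k : ℝ) + 1) / 3) ≤ log (1 + log (((2 ^ k + 2 : ℕ) : ℝ) + 1)) :=
        log_le_log (by positivity) (by linarith)
      linarith
    have h4 : 0 < (1 + log (1 + ((k : ℝ) + 1) / 3)) ^ (2 * c) :=
      rpow_pos_of_pos (by linarith [hgb k]) _
    simp only [hf, hg]
    have h5 : (2 : ℝ) ^ k * (((k : ℝ) + 1) / 3 * (1 + log (1 + ((k : ℝ) + 1) / 3)) ^ (2 * c)) ≤
        ((2 ^ k + 2 : ℕ) : ℝ) * log ((2 ^ k + 2 : ℕ) : ℝ) * H c (2 ^ k + 2) ^ 2 := by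
      have h6 : (2 : ℝ) ^ k ≤ ((2 ^ k + 2 : ℕ) : ℝ) := by push_cast; linarith
      calc (2 : ℝ) ^ k * (((k : ℝ) + 1) / 3 * (1 + log (1 + ((k : ℝ) + 1) / 3)) ^ (2 * c))
          ≤ ((2 ^ k + 2 : ℕ) : ℝ) * (log ((2 ^ k + 2 : ℕ) : ℝ) * H c (2 ^ k + 2) ^ 2) := by
            gcongr
        _ = _ := by ring
    calc (2 : ℝ) ^ k * (1 / (((2 ^ k + 2 : ℕ) : ℝ) * log ((2 ^ k + 2 : ℕ) : ℝ) *
          H c (2 ^ k + 2) ^ 2)) ≤ (2 : ℝ) ^ k * (1 / ((2 : ℝ) ^ k * (((k : ℝ) + 1) / 3 *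
            (1 + log (1 + ((k : ℝ) + 1) / 3)) ^ (2 * c)))) := by
          gcongr
      _ = _ := by field_simp
  refine Summable.of_nonneg_of_le (fun k => mul_nonneg (by positivity) (hf0 _)) hfg
    (Summable.mul_left 3 ?_)
  have hgm : ∀ ⦃m n : ℕ⦄, 0 < m → m ≤ n → g n ≤ g m := by
    intro m n _ hmn
    have hm0 : (0 : ℝ) ≤ m := Nat.cast_nonneg m
    have hmn' : (m : ℝ) ≤ n := by exact_mod_cast hmn
    have h1 := hgb m
    have h2 : log (1 + ((m : ℝ) + 1) / 3) ≤ log (1 + ((n : ℝ) + 1) / 3) :=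
      log_le_log (by positivity) (by linarith)
    have h3 : (1 + log (1 + ((m : ℝ) + 1) / 3)) ^ (2 * c) ≤
        (1 + log (1 + ((n : ℝ) + 1) / 3)) ^ (2 * c) :=
      rpow_le_rpow (by linarith) (by linarith) hs.le
    have h4 : 0 < (1 + log (1 + ((m : ℝ) + 1) / 3)) ^ (2 * c) :=
      rpow_pos_of_pos (by linarith) _
    have h5 : 0 < (1 + log (1 + ((n : ℝ) + 1) / 3)) ^ (2 * c) := lt_of_lt_of_le h4 h3
    simp only [hg]
    gcongr
  rw [← summable_condensed_iff_of_nonneg hg0 hgm]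
  have hps : Summable (fun j : ℕ => (3 : ℝ) ^ (2 * c) * (1 / (((j + 1 : ℕ) : ℝ)) ^ (2 * c))) :=
    Summable.mul_left _ ((summable_nat_add_iff 1).2
      (Real.summable_one_div_nat_rpow.2 (show 1 < 2 * c by linarith)))
  refine Summable.of_nonneg_of_le (fun k => mul_nonneg (by positivity) (hg0 _)) (fun j => ?_) hps
  have hj : (0 : ℝ) ≤ j := Nat.cast_nonneg j
  have hp : (0 : ℝ) < 2 ^ j := by positivity
  have h1 : ((j : ℝ) + 1) / 3 ≤ 1 + log (1 + (((2 ^ j : ℕ) : ℝ) + 1) / 3) := by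
    push_cast
    have hl := Real.log_two_gt_d9
    rcases le_total (j : ℝ) 2 with h2 | h2
    · have := log_nonneg (show (1 : ℝ) ≤ 1 + ((2 : ℝ) ^ j + 1) / 3 by linarith)
      linarith
    · have h3 : log ((2 : ℝ) ^ j / 2 ^ 2) ≤ log (1 + ((2 : ℝ) ^ j + 1) / 3) :=
        log_le_log (by positivity) (by linarith)
      rw [Real.log_div (by positivity) (by norm_num), Real.log_pow, Real.log_pow] at h3
      push_cast at h3
      nlinarith
  have h2 : (((j : ℝ) + 1) / 3) ^ (2 * c) ≤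
      (1 + log (1 + (((2 ^ j : ℕ) : ℝ) + 1) / 3)) ^ (2 * c) :=
    rpow_le_rpow (by positivity) h1 hs.le
  have h3 : (((j : ℝ) + 1) / 3) ^ (2 * c) = ((j : ℝ) + 1) ^ (2 * c) / 3 ^ (2 * c) :=
    div_rpow (by positivity) (by norm_num) _
  have h4 : 0 < ((j : ℝ) + 1) ^ (2 * c) := rpow_pos_of_pos (by positivity) _
  have h5 : (0 : ℝ) < 3 ^ (2 * c) := rpow_pos_of_pos (by norm_num) _
  have h6 : (2 : ℝ) ^ j * (((j : ℝ) + 1) ^ (2 * c) / 3 ^ (2 * c)) ≤
      (((2 ^ j : ℕ) : ℝ) + 1) * (1 + log (1 + (((2 ^ j : ℕ) : ℝ) + 1) / 3)) ^ (2 * c) := by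
    rw [← h3]
    have h7 : (2 : ℝ) ^ j ≤ ((2 ^ j : ℕ) : ℝ) + 1 := by push_cast; linarith
    gcongr
  simp only [hg]
  calc (2 : ℝ) ^ j * (1 / ((((2 ^ j : ℕ) : ℝ) + 1) *
        (1 + log (1 + (((2 ^ j : ℕ) : ℝ) + 1) / 3)) ^ (2 * c)))
      ≤ (2 : ℝ) ^ j * (1 / ((2 : ℝ) ^ j * (((j : ℝ) + 1) ^ (2 * c) / 3 ^ (2 * c)))) := by
        gcongr
    _ = _ := by
        push_cast
        field_simp


end Pool.Agent.Lib.MP_92a7e5_nt.NG.Large
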