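import Pool.Agent.Lib.MP_92a7e5_nt.NG.Block
import Pool.Agent.Lib.MP_92a7e5_nt.NG.Large

set_option autoImplicit false

namespace Pool.Agent.Lib.MP_92a7e5_nt.NG

open Finset Real Large

lemma gap_eq (k : ℕ) : gap k = (g k : ℝ) := by
  unfold gap pr g
  rw [Nat.cast_sub (nth_lt k).le]

/-- the auxiliary threshold for the gap itself -/
noncomputable def h2 (n : ℕ) : ℝ := 1 + log ((n : ℝ) + 1)

lemma h2_pos (n : ℕ) : 0 < h2 n := by
  unfold h2
  have h0 : (0 : ℝ) ≤ n := Nat.cast_nonneg n
  have := log_nonneg (show (1 : ℝ) ≤ (n : ℝ) + 1 by linarith)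
  linarith

lemma h2_mono : Monotone h2 := by
  intro m n h
  unfold h2
  have h0 : (0 : ℝ) ≤ m := Nat.cast_nonneg m
  have hmn : (m : ℝ) ≤ n := by exact_mod_cast h
  have : log ((m : ℝ) + 1) ≤ log ((n : ℝ) + 1) := log_le_log (by linarith) (by linarith)
  linarith

lemma h2_sum : Summable (fun n : ℕ => 1 / ((n : ℝ) * log n * h2 n ^ 2)) := by
  refine Summable.of_nonneg_of_le (fun n => ?_) (fun n => ?_) (H_sum (c := 1) (by norm_num))
  · have := Real.log_natCast_nonneg n
    positivity
  · have hl := Real.log_natCast_nonneg n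
    have hn : (0 : ℝ) ≤ n := Nat.cast_nonneg n
    have h1 : 0 < H 1 n := H_pos 1 n
    have h3 : H 1 n ≤ h2 n := by
      unfold H h2
      rw [rpow_one]
      have e1 : 0 ≤ log ((n : ℝ) + 1) := log_nonneg (by linarith)
      have e2 := Real.log_le_sub_one_of_pos (show (0 : ℝ) < 1 + log ((n : ℝ) + 1) by linarith)
      linarith
    rcases eq_or_lt_of_le (mul_nonneg hn hl) with h0 | h0
    · rw [← h0]; simp
    · gcongr

/-- summability over the indices with a small neighbouring gap -/
lemma small_nb {c : ℝ} (hc : 2 < c) (nb : ℕ → ℕ) (hnb1 : ∀ k, 1 ≤ k → 1 ≤ nb k)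
    (hnb : ∀ K, 1 ≤ K → ∀ a b : ℕ,
      ((Finset.Ico (2 ^ K) (2 ^ (K + 1))).filter (fun k => g k = a ∧ nb k = b)).card ≤
        cnt (2 ^ (K + 1)) a b ∨
      ((Finset.Ico (2 ^ K) (2 ^ (K + 1))).filter (fun k => g k = a ∧ nb k = b)).card ≤
        cnt (2 ^ (K + 1)) b a) :
    Summable (fun k : ℕ => if (nb k : ℝ) * H c (k + 1) ≤ log ((k : ℝ) + 1) ∧
        gap k < h2 (k + 1) * log ((k : ℝ) + 1) then 1 / (((k : ℝ) + 1) * gap k) else 0) := by
  set f : ℕ → ℝ := fun k => if (nb k : ℝ) * H c (k + 1) ≤ log ((k : ℝ) + 1) ∧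
        gap k < h2 (k + 1) * log ((k : ℝ) + 1) then 1 / (((k : ℝ) + 1) * gap k) else 0 with hf
  have hfn : ∀ k, 0 ≤ f k := fun k => by
    simp only [hf]
    have := gap_pos k
    split_ifs
    · positivity
    · exact le_rfl
  set ε : ℝ := c / 2 - 1 with hε
  have hε0 : 0 < ε := by rw [hε]; linarith
  obtain ⟨C, hC, K0, hK0⟩ := cnt_le ε hε0
  apply summable_of_blocks f hfn
  have hs : Summable (fun K : ℕ => 5 * C * (1 / (((K : ℝ) + 1) * bt K ^ (c / 2)))) :=
    (bt_sum (s := c / 2) (by linarith)).mul_left _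
  refine Summable.of_norm_bounded_eventually_nat hs ?_
  filter_upwards [Filter.eventually_ge_atTop (K0 + 1)] with K hK
  rw [Real.norm_of_nonneg (Finset.sum_nonneg fun k _ => hfn k)]
  have hbt := bt_ge K
  have hbt0 : 0 < bt K := by linarith
  have hKr : (0 : ℝ) ≤ K := Nat.cast_nonneg K
  have hb := block_bound (c := c) (R := C * (2 ^ K / ((K : ℝ) + 1) ^ 2 * bt K ^ ε)) K
    (by positivity) nb
    (fun a b ha hb => by
      rcases hnb K (by omega) a b with h | h
      · exact le_trans (by exact_mod_cast h) (hK0 K (by omega) a b ha hb)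
      · exact le_trans (by exact_mod_cast h) (hK0 K (by omega) b a hb ha))
    (by linarith) f
    (fun k _ => by
      simp only [hf]
      have := gap_pos k
      rw [gap_eq] at this ⊢
      split_ifs
      · exact le_rfl
      · positivity)
    (fun k hk hk0 => by
      rw [Finset.mem_Ico] at hk
      have hcond : (nb k : ℝ) * H c (k + 1) ≤ log ((k : ℝ) + 1) ∧
          gap k < h2 (k + 1) * log ((k : ℝ) + 1) := by
        by_contra hcon
        exact hk0 (by simp only [hf]; rw [if_neg hcon])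
      obtain ⟨hc1, hc2⟩ := hcond
      have hk1 : 1 ≤ k := le_trans Nat.one_le_two_pow hk.1
      have hkr : (2 : ℝ) ^ K ≤ k := by exact_mod_cast hk.1
      have hkr2 : (k : ℝ) + 1 ≤ 2 ^ (K + 1) := by exact_mod_cast (by omega : k + 1 ≤ 2 ^ (K + 1))
      have hl2 := Real.log_two_lt_d9
      have hl2' := Real.log_two_gt_d9
      have hlog1 : log ((k : ℝ) + 1) ≤ (K : ℝ) + 1 := by
        have e1 := log_le_log (by positivity) hkr2
        rw [Real.log_pow] at e1
        push_cast at e1
        nlinarith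
      have hlog0 : 0 ≤ log ((k : ℝ) + 1) := log_nonneg (by
        have : (0 : ℝ) ≤ k := Nat.cast_nonneg k
        linarith)
      have hlog2 : log (((k + 1 : ℕ) : ℝ) + 1) ≤ (K : ℝ) + 2 := by
        have e0 : (((k + 1 : ℕ) : ℝ) + 1) ≤ 2 ^ (K + 2) := by
          have e3 : (2 : ℝ) ^ (K + 2) = 2 * 2 ^ (K + 1) := by ring
          have e4 : (1 : ℝ) ≤ 2 ^ (K + 1) := one_le_pow₀ (by norm_num)
          push_cast
          rw [e3]
          linarith
        have e1 := log_le_log (by positivity) e0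
        rw [Real.log_pow] at e1
        push_cast at e1 ⊢
        nlinarith
      refine ⟨?_, hnb1 k hk1, ?_⟩
      · have e1 : gap k ≤ ((K : ℝ) + 3) ^ 2 := by
          calc gap k ≤ h2 (k + 1) * log ((k : ℝ) + 1) := hc2.le
            _ ≤ ((K : ℝ) + 3) * ((K : ℝ) + 1) := by
                have : h2 (k + 1) ≤ (K : ℝ) + 3 := by unfold h2; linarith
                gcongr
            _ ≤ _ := by nlinarith
        rw [gap_eq] at e1
        exact_mod_cast e1
      · have e1 : bt K ^ c ≤ H c (k + 1) := by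
          unfold H bt
          refine rpow_le_rpow (by
            have := bt_ge K
            unfold bt at this
            linarith) ?_ (by linarith)
          have e2 : ((K : ℝ) + 1) / 3 ≤ log (((k + 1 : ℕ) : ℝ) + 1) :=
            two_pow_log (by push_cast; linarith)
          have e3 : log (1 + ((K : ℝ) + 1) / 3) ≤ log (1 + log (((k + 1 : ℕ) : ℝ) + 1)) :=
            log_le_log (by positivity) (by linarith)
          linarith
        calc (nb k : ℝ) * bt K ^ c ≤ (nb k : ℝ) * H c (k + 1) := by gcongr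
          _ ≤ log ((k : ℝ) + 1) := hc1
          _ ≤ _ := hlog1)
  refine hb.trans (le_of_eq ?_)
  have e1 : bt K ^ c = bt K * bt K ^ ε * bt K ^ (c / 2) := by
    conv_rhs => rw [← Real.rpow_one (bt K), ← Real.rpow_mul hbt0.le, ← Real.rpow_mul hbt0.le,
      ← Real.rpow_add hbt0, ← Real.rpow_add hbt0]
    congr 1
    rw [hε]; ring
  rw [e1]
  have h1 : 0 < bt K ^ ε := rpow_pos_of_pos hbt0 _
  have h2' : 0 < bt K ^ (c / 2) := rpow_pos_of_pos hbt0 _
  field_simp

lemma small_next {c : ℝ} (hc : 2 < c) :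
    Summable (fun k : ℕ => if gap (k + 1) * H c (k + 1) ≤ log ((k : ℝ) + 1) ∧
        gap k < h2 (k + 1) * log ((k : ℝ) + 1) then 1 / (((k : ℝ) + 1) * gap k) else 0) := by
  have h := small_nb hc (fun k => g (k + 1)) (fun k _ => g_pos _) (fun K _ a b => by
    left
    unfold cnt
    apply Finset.card_le_card
    intro k hk
    rw [Finset.mem_filter, Finset.mem_Ico] at hk ⊢
    exact ⟨⟨le_trans Nat.one_le_two_pow hk.1.1, hk.1.2⟩, hk.2⟩)
  refine h.congr fun k => ?_
  rw [gap_eq (k + 1)]

lemma small_prev {c : ℝ} (hc : 2 < c) :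
    Summable (fun k : ℕ => if gap (k - 1) * H c (k + 1) ≤ log ((k : ℝ) + 1) ∧
        gap k < h2 (k + 1) * log ((k : ℝ) + 1) then 1 / (((k : ℝ) + 1) * gap k) else 0) := by
  have h := small_nb hc (fun k => g (k - 1)) (fun k _ => g_pos _) (fun K hK a b => by
    right
    unfold cnt
    refine Finset.card_le_card_of_injOn (fun k => k - 1) ?_ ?_
    · intro k hk
      simp only [Finset.coe_filter, Finset.mem_Ico, Set.mem_ofPred_eq] at hk ⊢
      have h2K : 2 ≤ 2 ^ K := by
        calc 2 = 2 ^ 1 := rfl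
          _ ≤ 2 ^ K := Nat.pow_le_pow_right (by norm_num) hK
      refine ⟨⟨by omega, by omega⟩, hk.2.2, ?_⟩
      rw [Nat.sub_add_cancel (by omega)]
      exact hk.2.1
    · intro k hk k' hk' h
      simp only [Finset.coe_filter, Finset.mem_Ico, Set.mem_ofPred_eq] at hk hk' h
      have h2K : 1 ≤ 2 ^ K := Nat.one_le_two_pow
      omega)
  refine h.congr fun k => ?_
  rw [gap_eq (k - 1)]

/-- the negligible indices -/
def Exc (h : ℕ → ℝ) (c : ℝ) (k : ℕ) : Prop :=
  h (k + 1) * log ((k : ℝ) + 1) ≤ gap k ∨ gap (k + 1) * H c (k + 1) ≤ log ((k : ℝ) + 1) ∨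
    gap (k - 1) * H c (k + 1) ≤ log ((k : ℝ) + 1)

open Classical in
theorem summable_exc {h : ℕ → ℝ} (hpos : ∀ n, 0 < h n) (hmono : Monotone h)
    (hsum : Summable (fun n : ℕ => 1 / ((n : ℝ) * log n * h n ^ 2))) {c : ℝ} (hc : 2 < c) :
    Summable (fun k : ℕ => if Exc h c k then 1 / (((k : ℝ) + 1) * gap k) else 0) := by
  have s1 := summable_large hpos hmono hsum
  have s2 := summable_large h2_pos h2_mono h2_sum
  have s3 := small_next hc
  have s4 := small_prev hc
  refine Summable.of_nonneg_of_le (fun k => ?_) (fun k => ?_) (((s1.add s2).add s3).add s4)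
  · have := gap_pos k
    split_ifs
    · positivity
    · exact le_rfl
  · have hg := gap_pos k
    have ht : 0 ≤ 1 / (((k : ℝ) + 1) * gap k) := by positivity
    unfold large
    by_cases h0 : Exc h c k
    · rw [if_pos h0]
      rcases h0 with h1 | h1 | h1
      · rw [if_pos h1]
        have e2 : 0 ≤ (if h2 (k + 1) * log ((k : ℝ) + 1) ≤ gap k
          then 1 / (((k : ℝ) + 1) * gap k) else 0) := by split_ifs <;> first | exact ht | exact le_rfl
        have e3 : 0 ≤ (if gap (k + 1) * H c (k + 1) ≤ log ((k : ℝ) + 1) ∧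
          gap k < h2 (k + 1) * log ((k : ℝ) + 1) then 1 / (((k : ℝ) + 1) * gap k) else 0) := by
          split_ifs <;> first | exact ht | exact le_rfl
        have e4 : 0 ≤ (if gap (k - 1) * H c (k + 1) ≤ log ((k : ℝ) + 1) ∧
          gap k < h2 (k + 1) * log ((k : ℝ) + 1) then 1 / (((k : ℝ) + 1) * gap k) else 0) := by
          split_ifs <;> first | exact ht | exact le_rfl
        linarith
      · have e1 : 0 ≤ (if h (k + 1) * log ((k : ℝ) + 1) ≤ gap k
          then 1 / (((k : ℝ) + 1) * gap k) else 0) := by split_ifs <;> first | exact ht | exact le_rfl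
        have e4 : 0 ≤ (if gap (k - 1) * H c (k + 1) ≤ log ((k : ℝ) + 1) ∧
          gap k < h2 (k + 1) * log ((k : ℝ) + 1) then 1 / (((k : ℝ) + 1) * gap k) else 0) := by
          split_ifs <;> first | exact ht | exact le_rfl
        by_cases h3 : gap k < h2 (k + 1) * log ((k : ℝ) + 1)
        · rw [if_pos (⟨h1, h3⟩ : gap (k + 1) * H c (k + 1) ≤ log ((k : ℝ) + 1) ∧
            gap k < h2 (k + 1) * log ((k : ℝ) + 1)), if_neg (not_le.2 h3)]
          linarith
        · rw [if_pos (not_lt.1 h3)]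
          have e3 : 0 ≤ (if gap (k + 1) * H c (k + 1) ≤ log ((k : ℝ) + 1) ∧
            gap k < h2 (k + 1) * log ((k : ℝ) + 1) then 1 / (((k : ℝ) + 1) * gap k) else 0) := by
            split_ifs <;> first | exact ht | exact le_rfl
          linarith
      · have e1 : 0 ≤ (if h (k + 1) * log ((k : ℝ) + 1) ≤ gap k
          then 1 / (((k : ℝ) + 1) * gap k) else 0) := by split_ifs <;> first | exact ht | exact le_rfl
        have e3 : 0 ≤ (if gap (k + 1) * H c (k + 1) ≤ log ((k : ℝ) + 1) ∧
          gap k < h2 (k + 1) * log ((k : ℝ) + 1) then 1 / (((k : ℝ) + 1) * gap k) else 0) := by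
          split_ifs <;> first | exact ht | exact le_rfl
        by_cases h3 : gap k < h2 (k + 1) * log ((k : ℝ) + 1)
        · rw [if_pos (⟨h1, h3⟩ : gap (k - 1) * H c (k + 1) ≤ log ((k : ℝ) + 1) ∧
            gap k < h2 (k + 1) * log ((k : ℝ) + 1)), if_neg (not_le.2 h3)]
          linarith
        · rw [if_pos (not_lt.1 h3)]
          have e4 : 0 ≤ (if gap (k - 1) * H c (k + 1) ≤ log ((k : ℝ) + 1) ∧
            gap k < h2 (k + 1) * log ((k : ℝ) + 1) then 1 / (((k : ℝ) + 1) * gap k) else 0) := by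
            split_ifs <;> first | exact ht | exact le_rfl
          linarith
    · rw [if_neg h0]
      split_ifs <;> linarith

end Pool.Agent.Lib.MP_92a7e5_nt.NG
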