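import Pool.Agent.Lib.MP_bca3e5_nt.Up

set_option autoImplicit false

/-!
Upper bound sieve for prime triples `x, x + a, x + a + b`, uniform in `a`, `b`.
-/

namespace Pool.Agent.Lib.MP_92a7e5_nt.NG

open Finset Pool.Agent

/-- the excluded classes -/
def QT (a b : ℕ) (p x : ℕ) : Prop := p ∣ x ∨ p ∣ x + a ∨ p ∣ x + a + b

instance (a b p : ℕ) : DecidablePred (QT a b p) := fun x => by unfold QT; infer_instance

lemma QT_mod (a b p x : ℕ) : QT a b p (x % p) ↔ QT a b p x := by
  unfold QT
  have h0 : p ∣ x % p ↔ p ∣ x := by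
    rw [Nat.dvd_iff_mod_eq_zero, Nat.mod_mod, ← Nat.dvd_iff_mod_eq_zero]
  have h1 : p ∣ x % p + a ↔ p ∣ x + a := by
    rw [Nat.dvd_iff_mod_eq_zero, Nat.dvd_iff_mod_eq_zero, Nat.mod_add_mod]
  have h2 : p ∣ x % p + a + b ↔ p ∣ x + a + b := by
    rw [Nat.dvd_iff_mod_eq_zero, Nat.dvd_iff_mod_eq_zero, add_assoc, Nat.mod_add_mod, add_assoc]
  rw [h0, h1, h2]

/-- the residue `-m` mod `p` -/
def ng (m p : ℕ) : ℕ := (p - m % p) % p

lemma dvd_add_ng {m p : ℕ} (hp : 0 < p) : p ∣ ng m p + m := by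
  have h1 : m % p < p := Nat.mod_lt _ hp
  rw [Nat.dvd_iff_mod_eq_zero, ng, Nat.mod_add_mod]
  rw [Nat.add_mod, ← Nat.add_mod, ← Nat.add_mod_mod]
  rw [show p - m % p + m % p = p by omega, Nat.mod_self]

lemma ng_unique {m p x : ℕ} (hp : 0 < p) (hx : x < p) (h : p ∣ x + m) : x = ng m p := by
  have h1 := dvd_add_ng (m := m) hp
  have h2 : ng m p < p := Nat.mod_lt _ hp
  have h3 : x + m ≡ ng m p + m [MOD p] :=
    ((Nat.modEq_zero_iff_dvd).2 h).trans ((Nat.modEq_zero_iff_dvd).2 h1).symm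
  have h4 : x ≡ ng m p [MOD p] := Nat.ModEq.add_right_cancel' m h3
  have h5 : x % p = ng m p % p := h4
  rwa [Nat.mod_eq_of_lt hx, Nat.mod_eq_of_lt h2] at h5

lemma filter_sub (a b : ℕ) {p : ℕ} (hp : 0 < p) :
    (range p).filter (QT a b p) ⊆ {0, ng a p, ng (a + b) p} := by
  intro x hx
  rw [mem_filter, mem_range] at hx
  rw [mem_insert, mem_insert, mem_singleton]
  rcases hx.2 with h | h | h
  · exact Or.inl (Nat.eq_zero_of_dvd_of_lt h hx.1)
  · exact Or.inr (Or.inl (ng_unique hp hx.1 h))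
  · exact Or.inr (Or.inr (ng_unique hp hx.1 (by rwa [← add_assoc])))

lemma om_le_three (a b : ℕ) {p : ℕ} (hp : p.Prime) : MPbca.om (QT a b) p ≤ 3 := by
  unfold MPbca.om
  exact (card_le_card (filter_sub a b hp.pos)).trans card_le_three

lemma om_two {a b : ℕ} (ha : 2 ∣ a) (hb : 2 ∣ b) : MPbca.om (QT a b) 2 < 2 := by
  unfold MPbca.om
  have h : (range 2).filter (QT a b 2) ⊆ {0} := by
    intro x hx
    rw [mem_filter, mem_range] at hx
    rw [mem_singleton]
    rcases hx.2 with h | h | h <;> omega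
  exact lt_of_le_of_lt (card_le_card h) (by simp)

lemma three_le_om {a b : ℕ} {p : ℕ} (hp : p.Prime) (h : ¬ p ∣ a * b * (a + b)) :
    3 ≤ MPbca.om (QT a b) p := by
  classical
  unfold MPbca.om
  have hpp := hp.pos
  have ha : ¬ p ∣ a := fun h1 => h ((h1.mul_right b).mul_right _)
  have hb : ¬ p ∣ b := fun h1 => h ((h1.mul_left a).mul_right _)
  have hab : ¬ p ∣ a + b := fun h1 => h (h1.mul_left _)
  have e1 := dvd_add_ng (m := a) hpp
  have e2 := dvd_add_ng (m := a + b) hpp
  have n1 : (0 : ℕ) ≠ ng a p := by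
    intro h0
    rw [← h0, zero_add] at e1
    exact ha e1
  have n2 : (0 : ℕ) ≠ ng (a + b) p := by
    intro h0
    rw [← h0, zero_add] at e2
    exact hab e2
  have n3 : ng a p ≠ ng (a + b) p := by
    intro h0
    rw [← h0] at e2
    have : p ∣ (ng a p + (a + b)) - (ng a p + a) := Nat.dvd_sub e2 e1
    rw [show ng a p + (a + b) - (ng a p + a) = b by omega] at this
    exact hb this
  have hsub : ({0, ng a p, ng (a + b) p} : Finset ℕ) ⊆ (range p).filter (QT a b p) := by
    intro x hx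
    rw [mem_insert, mem_insert, mem_singleton] at hx
    rw [mem_filter, mem_range]
    rcases hx with rfl | rfl | rfl
    · exact ⟨hpp, Or.inl (dvd_zero p)⟩
    · exact ⟨Nat.mod_lt _ hpp, Or.inr (Or.inl e1)⟩
    · exact ⟨Nat.mod_lt _ hpp, Or.inr (Or.inr (by rwa [add_assoc]))⟩
  have hcard : ({0, ng a p, ng (a + b) p} : Finset ℕ).card = 3 := by
    rw [card_insert_of_notMem, card_insert_of_notMem, card_singleton]
    · rw [mem_singleton]; exact n3
    · rw [mem_insert, mem_singleton, not_or]; exact ⟨n1, n2⟩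
  rw [← hcard]
  exact card_le_card hsub

lemma cube_log_le {x : ℝ} (hx : 1 ≤ x) : (Real.log x) ^ 3 ≤ 216 * Real.sqrt x := by
  have hx0 : 0 < x := by linarith
  have h1 : Real.log x ≤ 6 * x ^ (1 / 6 : ℝ) := by
    have := Real.log_le_rpow_div hx0.le (show (0 : ℝ) < 1 / 6 by norm_num)
    calc Real.log x ≤ x ^ (1 / 6 : ℝ) / (1 / 6) := this
      _ = _ := by ring
  have h2 : 0 ≤ Real.log x := Real.log_nonneg hx
  calc (Real.log x) ^ 3 ≤ (6 * x ^ (1 / 6 : ℝ)) ^ 3 := by gcongr
    _ = 216 * (x ^ (1 / 6 : ℝ)) ^ 3 := by ring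
    _ = 216 * Real.sqrt x := by
        rw [Real.sqrt_eq_rpow, ← Real.rpow_natCast, ← Real.rpow_mul hx0.le]
        norm_num

/-- upper bound sieve for prime triples `x, x + a, x + a + b`, uniform in `a`, `b` -/
theorem triples_count : ∃ C : ℝ, 0 < C ∧ ∃ X0 : ℕ, ∀ X : ℕ, X0 ≤ X → ∀ a b : ℕ, 0 < a → 0 < b →
    2 ∣ a → 2 ∣ b →
    (((Finset.Icc 1 X).filter (fun x => x.Prime ∧ (x + a).Prime ∧ (x + a + b).Prime)).card : ℝ) ≤
      C * (X / Real.log X ^ 3) * Real.exp (3 * ∑ p ∈ (a * b * (a + b)).primeFactors, (1 : ℝ) / p) := by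
  classical
  obtain ⟨C, hC, X0, hX0⟩ := MPbca.upper_uniform 3 (by norm_num)
  refine ⟨C + 1000, by positivity, X0 + 3, ?_⟩
  intro X hX a b ha hb ha2 hb2
  have hm0 : a * b * (a + b) ≠ 0 := by positivity
  set m := a * b * (a + b) with hm
  set Sg := ∑ p ∈ m.primeFactors, (1 : ℝ) / p with hSg
  have hSg0 : 0 ≤ Sg := Finset.sum_nonneg fun p _ => by positivity
  have hXr : (3 : ℝ) ≤ X := by exact_mod_cast (by omega : 3 ≤ X)
  have hlog : 0 < Real.log X := Real.log_pos (by linarith)
  have hXpos : (0 : ℝ) < X := by linarith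
  have hE : 1 ≤ Real.exp (3 * Sg) := Real.one_le_exp (by positivity)
  have hsq : Real.sqrt X ≤ 216 * (X / (Real.log X) ^ 3) := by
    rw [mul_div_assoc', le_div_iff₀ (by positivity)]
    have h1 := cube_log_le (x := X) (by linarith)
    have h2 : Real.sqrt X * Real.sqrt X = X := Real.mul_self_sqrt hXpos.le
    calc Real.sqrt X * (Real.log X) ^ 3 ≤ Real.sqrt X * (216 * Real.sqrt X) := by gcongr
      _ = 216 * (Real.sqrt X * Real.sqrt X) := by ring
      _ = 216 * X := by rw [h2]
  have hsq1 : (1 : ℝ) ≤ Real.sqrt X := by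
    rw [Real.one_le_sqrt]; linarith
  have hquo : 0 ≤ X / (Real.log X) ^ 3 := by positivity
  set S := (Finset.Icc 1 X).filter (fun x => x.Prime ∧ (x + a).Prime ∧ (x + a + b).Prime) with hS
  have hmem : ∀ x ∈ S, x ∈ Icc 1 X ∧ x.Prime ∧ (x + a).Prime ∧ (x + a + b).Prime := fun x hx => by
    rwa [hS, mem_filter] at hx
  by_cases h3 : MPbca.om (QT a b) 3 < 3
  · -- main case
    set S1 := S.filter (fun x => x ^ 2 ≤ X) with hS1
    set S2 := S.filter (fun x => ¬ x ^ 2 ≤ X) with hS2
    have hsplit : S.card = S1.card + S2.card := by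
      rw [hS1, hS2]
      exact (card_filter_add_card_filter_not _).symm
    have h1 : (S1.card : ℝ) ≤ Real.sqrt X := by
      have hsub : S1 ⊆ Icc 1 (Nat.sqrt X) := by
        intro x hx
        rw [hS1, mem_filter] at hx
        have := mem_Icc.1 (hmem x hx.1).1
        rw [mem_Icc]
        exact ⟨this.1, Nat.le_sqrt'.2 hx.2⟩
      have hc : S1.card ≤ Nat.sqrt X := by simpa using card_le_card hsub
      calc (S1.card : ℝ) ≤ Nat.sqrt X := by exact_mod_cast hc
        _ ≤ Real.sqrt X := Real.nat_sqrt_le_real_sqrt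
    have h2 : (S2.card : ℝ) ≤ C * (X / (Real.log X) ^ 3) *
        Real.exp ((3 : ℕ) * ∑ p ∈ m.primeFactors, (1 : ℝ) / p) := by
      refine hX0 X (by omega) (QT a b) (QT_mod a b) (fun p hp => om_le_three a b hp)
        (fun p hp => ?_) m.primeFactors (fun p hp _ hB => three_le_om hp (fun hd => hB ?_)) S2 ?_ ?_
      · rcases hp.two_le.eq_or_lt with h | h
        · rw [← h]; exact om_two ha2 hb2
        · rcases (show 3 ≤ p by omega).eq_or_lt with h' | h'
          · rw [← h']; exact h3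
          · exact lt_of_le_of_lt (om_le_three a b hp) h'
      · exact Nat.mem_primeFactors.2 ⟨hp, hd, hm0⟩
      · intro x hx
        rw [hS2, mem_filter] at hx
        exact (hmem x hx.1).1
      · intro x hx p hp hpX hQ
        rw [hS2, mem_filter] at hx
        obtain ⟨-, hx1, hx2, hx3⟩ := hmem x hx.1
        have hpx : p < x := by
          by_contra hc
          push Not at hc
          exact hx.2 (le_trans (Nat.pow_le_pow_left hc 2) hpX)
        rcases hQ with h | h | h
        · have := (Nat.prime_dvd_prime_iff_eq hp hx1).1 h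
          omega
        · have := (Nat.prime_dvd_prime_iff_eq hp hx2).1 h
          omega
        · have := (Nat.prime_dvd_prime_iff_eq hp hx3).1 h
          omega
    rw [hsplit]
    push_cast at h2 ⊢
    rw [← hSg] at h2
    calc (S1.card : ℝ) + S2.card ≤ 216 * (X / (Real.log X) ^ 3) * Real.exp (3 * Sg) +
          C * (X / (Real.log X) ^ 3) * Real.exp (3 * Sg) := by
          refine add_le_add ((h1.trans hsq).trans ?_) h2
          exact le_mul_of_one_le_right (by positivity) hE
      _ ≤ (C + 1000) * (X / (Real.log X) ^ 3) * Real.exp (3 * Sg) := by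
        have : 0 ≤ (X / (Real.log X) ^ 3) * Real.exp (3 * Sg) := by positivity
        nlinarith
  · -- all classes mod 3 are excluded
    have hall : ∀ x, 3 ∣ x ∨ 3 ∣ x + a ∨ 3 ∣ x + a + b := by
      intro x
      have hc : ((range 3).filter (QT a b 3)) = range 3 := by
        apply Finset.eq_of_subset_of_card_le (filter_subset _ _)
        rw [card_range]
        unfold MPbca.om at h3
        omega
      have h4 : x % 3 ∈ (range 3).filter (QT a b 3) := by
        rw [hc, mem_range]; exact Nat.mod_lt _ (by norm_num)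
      rw [mem_filter] at h4
      exact (QT_mod a b 3 x).1 h4.2
    have hcard : S.card ≤ 4 := by
      have hsub : S ⊆ range 4 := by
        intro x hx
        obtain ⟨-, hx1, hx2, hx3⟩ := hmem x hx
        rw [mem_range]
        rcases hall x with h | h | h
        · have := (Nat.prime_dvd_prime_iff_eq Nat.prime_three hx1).1 h; omega
        · have := (Nat.prime_dvd_prime_iff_eq Nat.prime_three hx2).1 h; omega
        · have := (Nat.prime_dvd_prime_iff_eq Nat.prime_three hx3).1 h; omega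
      simpa using card_le_card hsub
    have h4 : (S.card : ℝ) ≤ 4 := by exact_mod_cast hcard
    calc (S.card : ℝ) ≤ 4 := h4
      _ ≤ 4 * (216 * (X / (Real.log X) ^ 3)) := by linarith
      _ ≤ 4 * (216 * (X / (Real.log X) ^ 3)) * Real.exp (3 * Sg) :=
        le_mul_of_one_le_right (by positivity) hE
      _ ≤ (C + 1000) * (X / (Real.log X) ^ 3) * Real.exp (3 * Sg) := by
        have : 0 ≤ (X / (Real.log X) ^ 3) * Real.exp (3 * Sg) := by positivity
        nlinarith

end Pool.Agent.Lib.MP_92a7e5_nt.NG
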